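import Pool.Agent.ExtCmp.Fin2

/-! `Ext(ℤ[1/q], ℤ) ⊕ Ext(ℤ(p^∞), ⊕ ℤ/pⁿ)` is not `Ext(C,D)` unless both `C` and `D` have
uncountable torsion-free rank (in ZFC). -/

set_option autoImplicit false

namespace Pool.Agent.Results.MP_51b9a2_al.CountableRank

open DirectSum

/-- `G ≅ Ext(A,B)`: for some free presentation `q : ℤ^(ι) → A` of `A`, with kernel `R`, the group
`G` is isomorphic to `Hom(R,B)` modulo the restrictions of the homomorphisms `ℤ^(ι) → B`. -/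
def IsExtOf (G A B : Type) [AddCommGroup G] [AddCommGroup A] [AddCommGroup B] : Prop :=
  ∃ (ι : Type) (q : (ι →₀ ℤ) →+ A) (Φ : (q.ker →+ B) →+ G), Function.Surjective q ∧
    Function.Surjective Φ ∧ ∀ φ, Φ φ = 0 ↔ ∃ ψ : (ι →₀ ℤ) →+ B, ∀ x : q.ker, ψ x = φ x

/-- `ℤ[1/q]`, the rational numbers `x` with `q ^ k x` an integer for some `k`. -/
def ZInv (q : ℕ) : AddSubgroup ℚ where
  carrier := {x | ∃ (k : ℕ) (n : ℤ), (q : ℚ) ^ k * x = n}
  zero_mem' := ⟨0, 0, by simp⟩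
  add_mem' := by
    rintro x y ⟨k, n, h⟩ ⟨l, m, h'⟩
    refine ⟨k + l, q ^ l * n + q ^ k * m, ?_⟩
    push_cast
    rw [← h, ← h', pow_add]
    ring
  neg_mem' := by
    rintro x ⟨k, n, h⟩
    exact ⟨k, -n, by push_cast; rw [← h]; ring⟩

/-- The Prüfer group `ℤ(p^∞)`: the elements of `ℚ/ℤ` killed by a power of `p`. -/
def Pruefer (p : ℕ) : AddSubgroup (ℚ ⧸ (Int.castAddHom ℚ).range) where
  carrier := {u | ∃ k : ℕ, p ^ k • u = 0}
  zero_mem' := ⟨0, smul_zero _⟩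
  add_mem' := by
    rintro a b ⟨k, hk⟩ ⟨j, hj⟩
    refine ⟨k + j, ?_⟩
    rw [smul_add, pow_add, mul_smul, mul_smul, hj, smul_zero, add_zero, smul_comm, hk, smul_zero]
  neg_mem' := by
    rintro a ⟨k, hk⟩
    exact ⟨k, by rw [smul_neg, hk, neg_zero]⟩

/-- The direct sum of the cyclic groups `ℤ/pⁿ`, `n ≥ 1`. -/
abbrev Cyclics (p : ℕ) : Type := ⨁ n : ℕ, ZMod (p ^ (n + 1))

/-- `F` is isomorphic to a direct sum of countable groups (for instance `F` is countable, or free,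
or divisible and torsion-free). -/
def SumOfCountable (F : Type) [AddCommGroup F] : Prop :=
  ∃ (ι : Type) (G : ι → Type) (_ : ∀ i, AddCommGroup (G i)), (∀ i, Countable (G i)) ∧
    Nonempty (F ≃+ ⨁ i, G i)

/-- The class of the groups `Ext(A,B)`, for the pairs `(A,B)` of the class `K`, is closed under
direct sums (with summands and sum from `K`). -/
def ClosedFor (K : ∀ (A B : Type) [AddCommGroup A] [AddCommGroup B], Prop) : Prop :=
  ∀ (A₁ B₁ A₂ B₂ G₁ G₂ : Type) [AddCommGroup A₁] [AddCommGroup B₁] [AddCommGroup A₂]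
    [AddCommGroup B₂] [AddCommGroup G₁] [AddCommGroup G₂],
    K A₁ B₁ → K A₂ B₂ → IsExtOf G₁ A₁ B₁ → IsExtOf G₂ A₂ B₂ →
    ∃ (C D : Type) (_ : AddCommGroup C) (_ : AddCommGroup D), K C D ∧ IsExtOf (G₁ × G₂) C D

theorem result :
    (∀ p q : ℕ, p.Prime → q.Prime → p ≠ q → ∀ (G₁ G₂ C D : Type) [AddCommGroup G₁]
      [AddCommGroup G₂] [AddCommGroup C] [AddCommGroup D],
      IsExtOf G₁ (ZInv q) ℤ → IsExtOf G₂ (Pruefer p) (Cyclics p) → IsExtOf (G₁ × G₂) C D →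
        ¬ SumOfCountable (C ⧸ AddCommGroup.torsion C) ∧
          ¬ Countable (D ⧸ AddCommGroup.torsion D)) ∧
    (∀ p : ℕ, p.Prime → ∀ (V G₂ C D : Type) [AddCommGroup V] [AddCommGroup G₂] [AddCommGroup C]
      [AddCommGroup D], (∀ n : ℕ, n ≠ 0 → ∀ x : V, ∃ y : V, n • y = x) →
      (∃ v : V, v ≠ 0 ∧ p • v = 0) → IsExtOf G₂ (Pruefer p) (Cyclics p) →
      IsExtOf (V × G₂) C D → ¬ SumOfCountable (C ⧸ AddCommGroup.torsion C) ∧
        ({v : V | p • v = 0}.Countable → ¬ Countable (D ⧸ AddCommGroup.torsion D))) ∧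
    (∀ K : ∀ (A B : Type) [AddCommGroup A] [AddCommGroup B], Prop,
      (∀ (A B : Type) [AddCommGroup A] [AddCommGroup B], Countable A → Countable B → K A B) →
      (∀ (A B : Type) [AddCommGroup A] [AddCommGroup B], K A B →
        Countable (A ⧸ AddCommGroup.torsion A) ∨ Countable (B ⧸ AddCommGroup.torsion B)) →
      ¬ ClosedFor K) := by
  have h1 : ∀ p : ℕ, p.Prime → ∀ (V G₂ C D : Type) [AddCommGroup V] [AddCommGroup G₂]
      [AddCommGroup C] [AddCommGroup D], (∀ n : ℕ, n ≠ 0 → ∀ x : V, ∃ y : V, n • y = x) →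
      (∃ v : V, v ≠ 0 ∧ p • v = 0) → IsExtOf G₂ (Pruefer p) (Cyclics p) →
      IsExtOf (V × G₂) C D → ¬ SumOfCountable (C ⧸ AddCommGroup.torsion C) ∧
        ({v : V | p • v = 0}.Countable → ¬ Countable (D ⧸ AddCommGroup.torsion D)) := by
    intro p hp V G₂ C D _ _ _ _ hV hpos hG h
    exact ⟨Pool.Agent.ExtCnt.not_iso_V p hp V G₂ C D hG hV hpos h,
      fun hc => Pool.Agent.ExtCmp.not_iso_rank p hp V G₂ C D hG hV hc hpos h⟩
  have h2 : ∀ p q : ℕ, p.Prime → q.Prime → p ≠ q → ∀ (G₁ G₂ C D : Type) [AddCommGroup G₁]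
      [AddCommGroup G₂] [AddCommGroup C] [AddCommGroup D],
      IsExtOf G₁ (ZInv q) ℤ → IsExtOf G₂ (Pruefer p) (Cyclics p) → IsExtOf (G₁ × G₂) C D →
        ¬ SumOfCountable (C ⧸ AddCommGroup.torsion C) ∧
          ¬ Countable (D ⧸ AddCommGroup.torsion D) := by
    intro p q hp hq hpq G₁ G₂ C D _ _ _ _ hG₁ hG₂ h
    obtain ⟨hdiv, hpos⟩ := Pool.Agent.ExtCnt.G1_facts p q hp hq hpq G₁ hG₁
    obtain ⟨h3, h4⟩ := h1 p hp G₁ G₂ C D hdiv hpos hG₂ h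
    exact ⟨h3, h4 (Pool.Agent.ExtCmp.G1_more p q hp hq hpq G₁ hG₁)⟩
  refine ⟨h2, h1, fun K hK1 hK2 hcl => ?_⟩
  obtain ⟨G₁, _, hG₁⟩ := Pool.Agent.ExtCnt.exists_extOf (ZInv 3) ℤ
  obtain ⟨G₂, _, hG₂⟩ := Pool.Agent.ExtCnt.exists_extOf (Pruefer 2) (Cyclics 2)
  obtain ⟨C, D, _, _, hCD, h⟩ := hcl (ZInv 3) ℤ (Pruefer 2) (Cyclics 2) G₁ G₂
    (hK1 _ _ (Pool.Agent.ExtCnt.Zinv_countable 3) inferInstance)
    (hK1 _ _ (Pool.Agent.ExtCnt.Pruefer_countable 2)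
      (Pool.Agent.ExtCnt.cyc_countable Nat.prime_two)) hG₁ hG₂
  obtain ⟨h3, h4⟩ := h2 2 3 Nat.prime_two Nat.prime_three (by norm_num) G₁ G₂ C D hG₁ hG₂ h
  rcases hK2 C D hCD with hC | hD
  · exact h3 Pool.Agent.ExtCnt.DSC_of_countable
  · exact h4 hD

end Pool.Agent.Results.MP_51b9a2_al.CountableRank
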