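import Pool.Agent.ExtSum.Final

/-! If the class of the groups `Ext(A,B)` is closed under direct sums, then every cardinal
greater than `2^(2^ℵ₀)` is the cardinal of a group `Ext(F,B)` with `F` torsion-free and
`|B| ≤ 2^ℵ₀`. -/

set_option autoImplicit false

namespace Pool.Agent.Results.MP_51b9a2_al.ExtCardinals

open Cardinal Set

/-- `G` is isomorphic to `Ext(A,B)` for some abelian groups `A = (ι →₀ ℤ) ⧸ R` and `B`;
`Ext(A,B)` is computed as `Hom(R,B)` modulo the restrictions of homomorphisms `(ι →₀ ℤ) → B`. -/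
def IsExt (G : Type) [AddCommGroup G] : Prop :=
  ∃ (ι : Type) (B : Type) (_ : AddCommGroup B) (R : AddSubgroup (ι →₀ ℤ)),
    Nonempty (G ≃+ ((↥R →+ B) ⧸ (AddMonoidHom.compHom' (P := B) R.subtype).range))

/-- Q1: the direct sum of two groups of the form `Ext(A,B)` is again of this form. -/
def Closure : Prop :=
  ∀ (G₁ G₂ : Type) [AddCommGroup G₁] [AddCommGroup G₂],
    IsExt G₁ → IsExt G₂ → IsExt (G₁ × G₂)

/-- There are a torsion-free group `(ι →₀ ℤ) ⧸ R` and a group `B` with at most `2^ℵ₀` elements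
such that `Ext((ι →₀ ℤ) ⧸ R, B)` has exactly `μ` elements. -/
def ExtCard (μ : Cardinal.{0}) : Prop :=
  ∃ (ι B : Type) (_ : AddCommGroup B) (R : AddSubgroup (ι →₀ ℤ)), #B ≤ 𝔠 ∧
    (∀ n : ℕ, n ≠ 0 → ∀ x : (ι →₀ ℤ) ⧸ R, n • x = 0 → x = 0) ∧
    #((↥R →+ B) ⧸ (AddMonoidHom.compHom' (P := B) R.subtype).range) = μ

theorem result :
    (∀ I : Type, 2 ^ 𝔠 < #I →
      IsExt (I →₀ ℚ) ∧ IsExt (∀ p : Nat.Primes, ZMod p) ∧
      (IsExt ((I →₀ ℚ) × (∀ p : Nat.Primes, ZMod p)) → ExtCard #I)) ∧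
    (Closure → ∀ μ : Cardinal.{0}, 2 ^ 𝔠 < μ → ExtCard μ) := by
  obtain ⟨h1, h2, h3, _, _⟩ := Pool.Agent.ExtSum.main
  refine ⟨fun I hI => ⟨h1 I, h2, fun hE => h3 I hI hE⟩, fun hcl μ hμ => ?_⟩
  obtain ⟨I, rfl⟩ : ∃ I : Type, #I = μ := ⟨μ.out, mk_out μ⟩
  exact h3 I hμ (hcl _ _ (h1 I) h2)

end Pool.Agent.Results.MP_51b9a2_al.ExtCardinals
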