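import Pool.Agent.ExtSum.Final

/-! If the class of the groups `Ext(A,B)` is closed under direct sums, then the splitting of
extensions of groups of size at most `2^ℵ₀` is not compact at any cardinal; in particular there is
no strongly compact cardinal. -/

set_option autoImplicit false

namespace Pool.Agent.Results.MP_51b9a2_al.NoCompactness

open Cardinal Set

/-- `G` is isomorphic to `Ext(A,B)` for some abelian groups `A = (ι →₀ ℤ) ⧸ R` and `B`;
`Ext(A,B)` is computed as `Hom(R,B)` modulo the restrictions of homomorphisms `(ι →₀ ℤ) → B`. -/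
def IsExt (G : Type) [AddCommGroup G] : Prop :=
  ∃ (ι : Type) (B : Type) (_ : AddCommGroup B) (R : AddSubgroup (ι →₀ ℤ)),
    Nonempty (G ≃+ ((↥R →+ B) ⧸ (AddMonoidHom.compHom' (P := B) R.subtype).range))

/-- Q1: the direct sum of two groups of the form `Ext(A,B)` is again of this form. -/
def Closure : Prop :=
  ∀ (G₁ G₂ : Type) [AddCommGroup G₁] [AddCommGroup G₂],
    IsExt G₁ → IsExt G₂ → IsExt (G₁ × G₂)

/-- The splitting of extensions is not compact at `κ`: there is a surjective homomorphism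
`p : E → X` onto a torsion-free group `X` whose kernel has at most `2^ℵ₀` elements, which does not
split, but which splits over every subgroup of `X` with fewer than `κ` elements. -/
def NonCompactAt (κ : Cardinal.{0}) : Prop :=
  ∃ (E X : Type) (_ : AddCommGroup E) (_ : AddCommGroup X) (p : E →+ X),
    Function.Surjective p ∧ #p.ker ≤ 𝔠 ∧ (∀ n : ℕ, n ≠ 0 → ∀ x : X, n • x = 0 → x = 0) ∧
    (¬ ∃ s : X →+ E, ∀ x, p (s x) = x) ∧
    ∀ G : AddSubgroup X, #G < κ → ∃ s : ↥G →+ E, ∀ x : G, p (s x) = x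

/-- `κ` is `δ`-strongly compact (Bagaria, Magidor): every `κ`-complete proper filter on any set
can be extended to a `δ`-complete ultrafilter. -/
def StronglyCompactFor (δ κ : Cardinal.{0}) : Prop :=
  ∀ (X : Type) (f : Filter X), f.NeBot → CardinalInterFilter f κ →
    ∃ U : Ultrafilter X, (U : Filter X) ≤ f ∧ CardinalInterFilter (U : Filter X) δ

/-- `κ` is a strongly compact cardinal. -/
def IsStronglyCompact (κ : Cardinal.{0}) : Prop :=
  ℵ₀ < κ ∧ κ.IsRegular ∧ StronglyCompactFor κ κ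

/-- `μ` is an uncountable strong limit cardinal of cofinality `ω`. -/
def StrongLimitCofOmega (μ : Cardinal.{0}) : Prop :=
  ℵ₀ < μ ∧ (∀ c < μ, 2 ^ c < μ) ∧
    ∃ m : ℕ → Cardinal.{0}, (∀ n, m n < μ) ∧ ∀ c < μ, ∃ n, c ≤ m n

theorem result :
    (∀ I : Type, 𝔠 < #I → StrongLimitCofOmega #I →
      IsExt (I →₀ ℚ) ∧ IsExt (∀ p : Nat.Primes, ZMod p) ∧
      (IsExt ((I →₀ ℚ) × (∀ p : Nat.Primes, ZMod p)) →
        ∀ κ < #I, NonCompactAt κ ∧ ¬ StronglyCompactFor (Order.succ 𝔠) κ)) ∧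
    (Closure → ∀ κ : Cardinal.{0},
      NonCompactAt κ ∧ ¬ StronglyCompactFor (Order.succ 𝔠) κ ∧ ¬ IsStronglyCompact κ) := by
  obtain ⟨h1, h2, _, h4, h5⟩ := Pool.Agent.ExtSum.main
  refine ⟨fun I hI hS => ⟨h1 I, h2, fun hE κ hκ => ?_⟩, fun hcl κ => ?_⟩
  · obtain ⟨h6, h7, _⟩ := h4 I hI ⟨hS.1, hS.2.1, hS.2.2⟩ hE
    exact ⟨h6 κ hκ, h7 κ hκ⟩
  · obtain ⟨h6, h7, h8, _⟩ := h5 hcl
    exact ⟨h6 κ, h7 κ, fun h => h8 κ h⟩

end Pool.Agent.Results.MP_51b9a2_al.NoCompactness
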