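import Pool.Agent.ExtSum.Final

/-! If the class of the groups `Ext(A,B)` is closed under direct sums, then the weak diamond
principle of Devlin and Shelah fails for stationary subsets of arbitrarily large regular
cardinals; in particular Jensen's diamond fails there, and `V = L` does not hold. -/

set_option autoImplicit false

namespace Pool.Agent.Results.MP_51b9a2_al.NoWeakDiamond

open Cardinal Set

/-- `G` is isomorphic to `Ext(A,B)` for some abelian groups `A = (ι →₀ ℤ) ⧸ R` and `B`;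
`Ext(A,B)` is computed as `Hom(R,B)` modulo the restrictions of homomorphisms `(ι →₀ ℤ) → B`. -/
def IsExt (G : Type) [AddCommGroup G] : Prop :=
  ∃ (ι : Type) (B : Type) (_ : AddCommGroup B) (R : AddSubgroup (ι →₀ ℤ)),
    Nonempty (G ≃+ ((↥R →+ B) ⧸ (AddMonoidHom.compHom' (P := B) R.subtype).range))

/-- Q1: the direct sum of two groups of the form `Ext(A,B)` is again of this form. -/
def Closure : Prop :=
  ∀ (G₁ G₂ : Type) [AddCommGroup G₁] [AddCommGroup G₂],
    IsExt G₁ → IsExt G₂ → IsExt (G₁ × G₂)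

/-- Jensen's diamond for a set `S` of elements of a well-ordered set. -/
def Diamond {α : Type} [LinearOrder α] (S : Set α) : Prop :=
  ∃ A : α → Set α, ∀ Z : Set α, IsStationary {a | a ∈ S ∧ Z ∩ Iio a = A a ∩ Iio a}

/-- The weak diamond of Devlin and Shelah for `S`: for every colouring `F` of the bounded sets
with two colours there is `ψ` such that for every `Z` the set of the `a ∈ S` with
`F a (Z ∩ a) = ψ a` is stationary. -/
def WeakDiamond {α : Type} [LinearOrder α] (S : Set α) : Prop :=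
  ∀ F : α → Set α → Prop, ∃ ψ : α → Prop,
    ∀ Z : Set α, IsStationary {a | a ∈ S ∧ (F a (Z ∩ Iio a) ↔ ψ a)}

/-- For some regular cardinal `> ρ` (realised as the well-ordered set `α`) and some stationary
subset `S` of it the weak diamond fails, and hence the diamond fails. -/
def DiamondFailsAbove (ρ : Cardinal.{0}) : Prop :=
  ∃ (α : Type) (_ : LinearOrder α) (_ : WellFoundedLT α) (_ : IsRegularCardinalOrder α)
    (S : Set α), ρ < #α ∧ IsStationary S ∧ ¬ WeakDiamond S ∧ ¬ Diamond S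

/-- `μ` is an uncountable strong limit cardinal of cofinality `ω`. -/
def StrongLimitCofOmega (μ : Cardinal.{0}) : Prop :=
  ℵ₀ < μ ∧ (∀ c < μ, 2 ^ c < μ) ∧
    ∃ m : ℕ → Cardinal.{0}, (∀ n, m n < μ) ∧ ∀ c < μ, ∃ n, c ≤ m n

theorem fails {ρ : Cardinal.{0}} (h : Pool.Agent.ExtSum.WeakDiamondFailsAbove ρ) :
    DiamondFailsAbove ρ := by
  obtain ⟨α, i1, i2, i3, S, hS1, hS2, hS3⟩ := h
  exact ⟨α, i1, i2, i3, S, hS1, hS2, hS3, fun hd => hS3 (Pool.Agent.ExtSum.Diamond.weak hd)⟩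

theorem result :
    (∀ I : Type, 𝔠 < #I → StrongLimitCofOmega #I →
      IsExt (I →₀ ℚ) ∧ IsExt (∀ p : Nat.Primes, ZMod p) ∧
      (IsExt ((I →₀ ℚ) × (∀ p : Nat.Primes, ZMod p)) → ∀ ρ < #I, DiamondFailsAbove ρ)) ∧
    (Closure → ∀ ρ : Cardinal.{0}, DiamondFailsAbove ρ) := by
  obtain ⟨h1, h2, _, h4, h5⟩ := Pool.Agent.ExtSum.main
  refine ⟨fun I hI hS => ⟨h1 I, h2, fun hE ρ hρ => ?_⟩, fun hcl ρ => ?_⟩
  · obtain ⟨_, _, h6⟩ := h4 I hI ⟨hS.1, hS.2.1, hS.2.2⟩ hE
    exact fails (h6 ρ hρ)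
  · obtain ⟨_, _, _, h6⟩ := h5 hcl
    exact fails (h6 ρ)

end Pool.Agent.Results.MP_51b9a2_al.NoWeakDiamond
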